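import Mathlib
import Pool.Agent.MP_d6b0b9_al.Top

namespace Pool.Agent.Results.MP_d6b0b9_al.Level

open Finset MvPolynomial Pool.Agent.MP_d6b0b9_al

/-- If all circuits of a matroid have the same size, the quotient by the second symbolic power
of its Stanley–Reisner ideal is level. -/
theorem result (k : Type*) [Field k] (n : ℕ) (Δ : Set (Finset (Fin n)))
    (hΔ : IsMatroidComplex Δ)
    (hcirc : ∀ C C', IsCircuit Δ C → IsCircuit Δ C' → C.card = C'.card) :
    IsLevel (symbPow (srIdeal k Δ) 2) := by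
  classical
  have hJ := mem_symbPow_two (k := k) hΔ
  have hD : Down univ (· ∈ Δ) := fun F _ G hG hF => hΔ.down_closed F hF G hG
  have hE : Exch univ (· ∈ Δ) := fun F _ G _ hF hG h => by
    obtain ⟨v, hv, h⟩ := hΔ.exchange F hF G hG h
    exact ⟨v, (Finset.mem_sdiff.mp hv).1, (Finset.mem_sdiff.mp hv).2, h⟩
  obtain ⟨B, hB, hmax⟩ := Finset.exists_max_image (univ.filter (· ∈ Δ)) Finset.card
    ⟨∅, by simpa using hΔ.empty_mem⟩
  have hB' : B ∈ Δ := by simpa using hB
  have hmax' : ∀ F ∈ Δ, F.card ≤ B.card := fun F hF => hmax F (by simpa using hF)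
  have hcirc' : ∀ C, C ∉ Δ → (∀ e ∈ C, C.erase e ∈ Δ) → IsCircuit Δ C := by
    intro C h1 h2
    refine ⟨h1, fun G hG hle => ?_⟩
    intro e he
    by_contra h
    exact hG (hΔ.down_closed _ (h2 e he) G fun x hx =>
      Finset.mem_erase.mpr ⟨fun h' => h (h' ▸ hx), hle hx⟩)
  obtain ⟨s, hs⟩ : ∃ s, ∀ C, C ∉ Δ → (∀ e ∈ C, C.erase e ∈ Δ) → C.card = s := by
    by_cases h : ∃ C, IsCircuit Δ C
    · obtain ⟨C0, h0⟩ := h
      exact ⟨C0.card, fun C h1 h2 => hcirc C C0 (hcirc' C h1 h2) h0⟩
    · exact ⟨0, fun C h1 h2 => absurd ⟨C, hcirc' C h1 h2⟩ h⟩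
  set E' : Finset (Fin n) := univ.filter fun e => ∃ F, F ∈ Δ ∧ insert e F ∉ Δ with hE'def
  have hE' : ∀ e, e ∈ E' ↔ ∃ F, F ∈ Δ ∧ insert e F ∉ Δ := fun e => by simp [hE'def]
  have key : ∀ i j, (n - B.card < i ∨ (n - B.card = i ∧
      j ≠ if i = 0 then 0 else E'.card + s)) → TorVanishes (symbPow (srIdeal k Δ) 2) i j := by
    intro i j hij
    refine torVanishes_of_exa hJ fun b hb => ?_
    refine Exa.congr (exa_strand hD hE hB' hs hE' b.support (fun i => b i - 1) i ?_)
      fun τ _ => (strand_iff b τ).symm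
    rw [Fintype.card_fin, ← degree_eq_card_add, hb]
    exact hij
  refine ⟨fun p hp d => (hJ _).mpr fun a ha => ?_, n - B.card, height_symbPow_two hΔ hB' hmax',
    fun i hi j => key i j (Or.inl hi), if n - B.card = 0 then 0 else E'.card + s, ?_,
    fun j hj => key _ j (Or.inr ⟨rfl, hj⟩)⟩
  · rw [coeff_homogeneousComponent, (hJ p).mp hp a ha, ite_self]
  · intro h
    split_ifs at h with hc
    · rw [hc] at h
      obtain ⟨w, hw⟩ := exa_of_torVanishes hJ 0 (by simpa using h) (fun _ => 1)
        (fun ρ _ hρ _ => by omega)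
      have := hw ∅ (by simp) rfl ⟨∅, hΔ.empty_mem, by simp⟩
      simp [dd] at this
    · have hu : (univ : Finset (Fin n)) ∉ Δ := fun hu => by
        have := hmax' _ hu
        rw [Finset.card_univ, Fintype.card_fin] at this
        omega
      obtain ⟨C, -, hC⟩ := exists_minimal_le_of_wellFoundedLT (fun F => F ∉ Δ) _ hu
      have hC' : ∀ e ∈ C, C.erase e ∈ Δ := fun e he => by
        by_contra h'
        have := hC.2 h' (Finset.erase_subset e C) he
        simp at this
      have hCE : C ⊆ E' := fun e he =>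
        (hE' e).mpr ⟨C.erase e, hC' e he, by rw [Finset.insert_erase he]; exact hC.1⟩
      have hsupp : (ind E' + ind C).support = E' := by
        ext x
        simp only [Finsupp.mem_support_iff, Finsupp.add_apply, ind_apply]
        by_cases h1 : x ∈ E'
        · simp [h1]
        · have h2 : x ∉ C := fun h => h1 (hCE h)
          simp [h1, h2]
      have h1 := exa_of_torVanishes hJ (ind E' + ind C) (i := n - B.card) (by
        rwa [map_add, degree_ind, degree_ind, hs C hC.1 hC'])
      have h2 := Exa.congr h1 fun τ _ => strand_iff (ind E' + ind C) τ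
      rw [hsupp] at h2
      refine not_exa_strand (k := k) hD hE hB' hmax' hE' hC.1 hC'
        (b := fun i => (ind E' + ind C) i - 1) (fun i hi => ?_) (by rwa [Fintype.card_fin])
      simp [hi]

end Pool.Agent.Results.MP_d6b0b9_al.Level
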